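import Pool.Agent.Helper75.Reducts.Defs

/-!
# Descending chain condition for closed supergroups of the image of `G_S`
-/

namespace Reducts

/-- A finite partial injection of `ℕ` extends to a permutation. -/
theorem exists_perm_extend {T : Set ℕ} (hT : T.Finite) (f : ℕ → ℕ) (hf : Set.InjOn f T) :
    ∃ g : Equiv.Perm ℕ, ∀ x ∈ T, g x = f x := by
  have : Finite T := hT
  obtain ⟨g, hg⟩ := Cardinal.extend_function_of_lt (s := T) (β := ℕ)
    ⟨fun x => f x, fun x y h => Subtype.ext (hf x.2 y.2 h)⟩
    (by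
      simp) ⟨Equiv.refl ℕ⟩
  exact ⟨g, fun x hx => hg ⟨x, hx⟩⟩

/-- A strictly increasing map moving `u` to `u'` and fixing the numbers below `s`. -/
theorem exists_strictMono {V : Type*} [Finite V] (s : ℕ) (u u' : V → ℕ)
    (hA : ∀ i, u i ≤ u' i) (hB : ∀ i j, u j ≤ u i → u' j + u i ≤ u' i + u j)
    (hC : ∀ i, u i < s → u' i = u i) :
    ∃ f : ℕ → ℕ, StrictMono f ∧ (∀ n < s, f n = n) ∧ ∀ i, f (u i) = u' i := by
  classical
  have := Fintype.ofFinite V
  let D : ℕ → ℕ := fun n => (Finset.univ.filter (fun i => u i ≤ n)).sup (fun i => u' i - u i)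
  have hDmono : Monotone D := by
    intro n m hnm
    apply Finset.sup_mono
    intro i hi
    simp only [Finset.mem_filter, Finset.mem_univ, true_and] at hi ⊢
    omega
  refine ⟨fun n => n + D n, ?_, ?_, ?_⟩
  · intro n m hnm
    have := hDmono hnm.le
    show n + D n < m + D m
    omega
  · intro n hn
    show n + D n = n
    have : D n = 0 := by
      have h0 : D n ≤ 0 := by
        apply Finset.sup_le
        intro i hi
        simp only [Finset.mem_filter, Finset.mem_univ, true_and] at hi
        have := hC i (by omega)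
        omega
      omega
    omega
  · intro i
    show u i + D (u i) = u' i
    have h1 : D (u i) ≤ u' i - u i := by
      apply Finset.sup_le
      intro j hj
      simp only [Finset.mem_filter, Finset.mem_univ, true_and] at hj
      have := hB i j hj
      have := hA i
      have := hA j
      omega
    have h2 : u' i - u i ≤ D (u i) :=
      Finset.le_sup (f := fun i => u' i - u i) (by simp)
    have := hA i
    omega

/-- An increasing sequence of upward closed subsets of a well quasi-order stabilises. -/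
theorem stab_of_wqo {A : Type*} (R : A → A → Prop) (hR : WellQuasiOrdered R) (U : ℕ → Set A)
    (hmono : Monotone U) (hup : ∀ n a b, R a b → a ∈ U n → b ∈ U n) :
    ∃ n, ∀ m ≥ n, U m = U n := by
  by_contra hcon
  push Not at hcon
  have h1 : ∀ n, ∃ m, ∃ a, a ∈ U m ∧ a ∉ U n := by
    intro n
    obtain ⟨m, hm, hne⟩ := hcon n
    have : ¬ U m ⊆ U n := fun h => hne (Set.Subset.antisymm h (hmono hm))
    rw [Set.not_subset] at this
    obtain ⟨a, ha, ha'⟩ := this
    exact ⟨m, a, ha, ha'⟩
  choose st el hel hel' using h1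
  let N : ℕ → ℕ := fun k => (fun n => max n (st n))^[k] 0
  have hN : ∀ k, N (k + 1) = max (N k) (st (N k)) := fun k => Function.iterate_succ_apply' _ _ _
  have hNmono : Monotone N := by
    apply monotone_nat_of_le_succ
    intro k
    rw [hN]
    exact le_max_left _ _
  obtain ⟨i, j, hij, hr⟩ := hR (fun k => el (N k))
  have h2 : el (N i) ∈ U (N j) := by
    have h3 : el (N i) ∈ U (N (i + 1)) := by
      rw [hN]
      exact hmono (le_max_right _ _) (hel (N i))
    exact hmono (hNmono (by omega : i + 1 ≤ j)) h3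
  exact hel' (N j) (hup _ _ _ hr h2)

/-- The walk along a linear order of type at most `ω`. -/
theorem walk {X B : Type*} [LinearOrder X] (hfin : ∀ x : X, (Set.Iio x).Finite) (p : X → B)
    (hp : Function.Surjective p) (K K' : Subgroup (Equiv.Perm B)) (hle : K' ≤ K)
    (hcl : IsClosedSub K')
    (hNE : ∀ x y, (∃ k ∈ K, (∀ z < x, k (p z) = p z) ∧ k (p x) = p y) →
      (∃ k ∈ K', (∀ z < x, k (p z) = p z) ∧ k (p x) = p y)) : K' = K := by
  refine le_antisymm hle ?_
  intro k hk
  have hwf : WellFounded (fun x y : X => x < y) := by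
    have : ∀ x : X, Acc (· < ·) x := by
      have hcard : ∀ n : ℕ, ∀ x : X, (Set.Iio x).ncard ≤ n → Acc (· < ·) x := by
        intro n
        induction n with
        | zero =>
          intro x hx
          constructor
          intro y hy
          have : (Set.Iio x).ncard = 0 := by omega
          rw [Set.ncard_eq_zero (hfin x)] at this
          have : y ∈ (∅ : Set X) := this ▸ hy
          exact absurd this (Set.notMem_empty y)
        | succ n ih =>
          intro x hx
          constructor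
          intro y hy
          apply ih
          have : (Set.Iio y).ncard < (Set.Iio x).ncard := by
            apply Set.ncard_lt_ncard _ (hfin x)
            constructor
            · exact Set.Iio_subset_Iio hy.le
            · intro h
              have : y ∈ Set.Iio y := h hy
              exact lt_irrefl y this
          omega
      exact fun x => hcard _ x le_rfl
    exact ⟨this⟩
  have key : ∀ x : X, ∃ k' ∈ K', ∀ z ≤ x, k' (p z) = k (p z) := by
    intro x
    induction x using hwf.induction with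
    | _ x ih =>
      have hpre : ∃ k' ∈ K', ∀ z < x, k' (p z) = k (p z) := by
        by_cases hne : (Set.Iio x).Nonempty
        · obtain ⟨w, hw⟩ := (hfin x).exists_maximal hne
          obtain ⟨k', hk', h⟩ := ih w hw.1
          refine ⟨k', hk', fun z hz => h z ?_⟩
          by_contra hzw
          push Not at hzw
          exact absurd (hw.2 hz hzw.le) (not_le.mpr hzw)
        · exact ⟨1, K'.one_mem, fun z hz => absurd ⟨z, hz⟩ hne⟩
      obtain ⟨k', hk', h⟩ := hpre
      obtain ⟨y, hy⟩ := hp (k'⁻¹ (k (p x)))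
      have h1 : ∃ q ∈ K, (∀ z < x, q (p z) = p z) ∧ q (p x) = p y := by
        refine ⟨k'⁻¹ * k, K.mul_mem (K.inv_mem (hle hk')) hk, ?_, ?_⟩
        · intro z hz
          rw [Equiv.Perm.mul_apply, ← h z hz]; simp
        · rw [Equiv.Perm.mul_apply, hy]
      obtain ⟨q, hq, hq1, hq2⟩ := hNE x y h1
      refine ⟨k' * q, K'.mul_mem hk' hq, ?_⟩
      intro z hz
      rcases lt_or_eq_of_le hz with hz | rfl
      · rw [Equiv.Perm.mul_apply, hq1 z hz, h z hz]
      · rw [Equiv.Perm.mul_apply, hq2, hy]; simp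
  apply hcl
  intro F
  choose c hc using hp
  classical
  by_cases hF : F.Nonempty
  · have hF' : (F.image c).Nonempty := hF.image c
    obtain ⟨k', hk', h⟩ := key ((F.image c).max' hF')
    refine ⟨k', hk', fun b hb => ?_⟩
    have := h (c b) (Finset.le_max' _ _ (Finset.mem_image_of_mem c hb))
    rwa [hc b] at this
  · rw [Finset.not_nonempty_iff_eq_empty] at hF
    subst hF
    exact ⟨1, K'.one_mem, fun b hb => by simp at hb⟩

/-- Codes of elements: an orbit representative and an injective tuple. -/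
@[ext] structure Code (m d : ℕ) where
  idx : Fin m
  t : Fin d → ℕ
  inj : Function.Injective t

namespace Code

variable {m d : ℕ}

/-- The key by which codes are ordered. -/
def key (x : Code m d) : ℕ ×ₗ ((Lex (Fin d → ℕ)) ×ₗ (Fin m)) :=
  toLex (Finset.univ.sup x.t, toLex (toLex x.t, x.idx))

theorem key_inj : Function.Injective (key (m := m) (d := d)) := by
  intro x y h
  have h1 : ((Finset.univ.sup x.t, toLex (toLex x.t, x.idx)) : ℕ × _)
    = (Finset.univ.sup y.t, toLex (toLex y.t, y.idx)) := toLex.injective h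
  have h2 : (toLex (toLex x.t, x.idx) : (Lex (Fin d → ℕ)) ×ₗ (Fin m)) = toLex (toLex y.t, y.idx) :=
    (Prod.mk.inj h1).2
  have h3 := toLex.injective h2
  have h4 := Prod.mk.inj h3
  exact Code.ext h4.2 (toLex.injective h4.1)

noncomputable instance : LinearOrder (Code m d) := LinearOrder.lift' key key_inj

theorem lt_iff (x y : Code m d) : x < y ↔ (Finset.univ.sup x.t < Finset.univ.sup y.t ∨
    (Finset.univ.sup x.t = Finset.univ.sup y.t ∧
      ((∃ i, (∀ j < i, x.t j = y.t j) ∧ x.t i < y.t i) ∨ (x.t = y.t ∧ x.idx < y.idx)))) := by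
  have h : x < y ↔ key x < key y := Iff.rfl
  rw [h, key, key, Prod.Lex.toLex_lt_toLex, Prod.Lex.toLex_lt_toLex]
  have h2 : (toLex x.t < toLex y.t) ↔ (∃ i, (∀ j < i, x.t j = y.t j) ∧ x.t i < y.t i) := Iff.rfl
  rw [h2, toLex_inj]

/-- Strictly increasing maps act on codes. -/
def map (f : ℕ → ℕ) (hf : StrictMono f) (x : Code m d) : Code m d :=
  ⟨x.idx, fun i => f (x.t i), hf.injective.comp x.inj⟩

theorem map_lt (hd : 0 < d) (f : ℕ → ℕ) (hf : StrictMono f) {x y : Code m d} (h : x < y) :
    x.map f hf < y.map f hf := by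
  have hsup : ∀ z : Code m d, Finset.univ.sup (z.map f hf).t = f (Finset.univ.sup z.t) := by
    intro z
    have hne : (Finset.univ : Finset (Fin d)).Nonempty := ⟨⟨0, hd⟩, Finset.mem_univ _⟩
    exact (Finset.apply_sup_eq_sup_comp_of_nonempty hf.monotone hne).symm
  rw [lt_iff] at h ⊢
  rw [hsup, hsup]
  rcases h with h | ⟨h, ⟨i, h1, h2⟩ | ⟨h1, h2⟩⟩
  · exact Or.inl (hf h)
  · exact Or.inr ⟨congrArg f h, Or.inl ⟨i, fun j hj => congrArg f (h1 j hj), hf h2⟩⟩
  · refine Or.inr ⟨congrArg f h, Or.inr ⟨?_, h2⟩⟩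
    funext i
    exact congrArg f (congrFun h1 i)

theorem finite_Iio (x : Code m d) : (Set.Iio x).Finite := by
  have h1 : ((Set.univ : Set (Fin m)) ×ˢ
      (Set.Icc (0 : Fin d → ℕ) (fun _ => Finset.univ.sup x.t))).Finite :=
    Set.finite_univ.prod (Set.finite_Icc _ _)
  refine Set.Finite.of_finite_image (f := fun y : Code m d => (y.idx, y.t)) (h1.subset ?_) ?_
  · rintro _ ⟨y, hy, rfl⟩
    have hle : Finset.univ.sup y.t ≤ Finset.univ.sup x.t := by
      rcases (lt_iff y x).1 hy with h | h
      · exact h.le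
      · exact h.1.le
    refine ⟨Set.mem_univ _, ⟨fun i => Nat.zero_le _, fun i => ?_⟩⟩
    exact (Finset.le_sup (Finset.mem_univ i)).trans hle
  · intro y _ z _ h
    have := Prod.mk.inj h
    exact Code.ext this.1 this.2

end Code

/-- Pairs of codes are well-quasi-ordered by strictly increasing maps fixing the numbers
below `s`. -/
theorem wqo_codes (m d s : ℕ) : WellQuasiOrdered (fun a b : Code m d × Code m d =>
    ∃ (f : ℕ → ℕ) (hf : StrictMono f), (∀ n < s, f n = n) ∧ a.1.map f hf = b.1 ∧
      a.2.map f hf = b.2) := by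
  let u : Code m d × Code m d → (Fin d ⊕ Fin d) → ℕ := fun a => Sum.elim a.1.t a.2.t
  let Φ : Code m d × Code m d → ((Fin d ⊕ Fin d) → ℕ) × ((Fin d ⊕ Fin d) → ℕ) ×
      (((Fin d ⊕ Fin d) × (Fin d ⊕ Fin d)) → ℕ) × (((Fin d ⊕ Fin d) × (Fin d ⊕ Fin d)) → ℕ) ×
      ℕ × ℕ × ℕ × ℕ := fun a =>
    (u a, fun i => s - u a i, fun ij => u a ij.1 - u a ij.2,
      fun ij => if u a ij.1 ≤ u a ij.2 then 1 else 0, (a.1.idx : ℕ), m - (a.1.idx : ℕ),
      (a.2.idx : ℕ), m - (a.2.idx : ℕ))
  have hwqo := wellQuasiOrdered_le (α := ((Fin d ⊕ Fin d) → ℕ) × ((Fin d ⊕ Fin d) → ℕ) ×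
      (((Fin d ⊕ Fin d) × (Fin d ⊕ Fin d)) → ℕ) × (((Fin d ⊕ Fin d) × (Fin d ⊕ Fin d)) → ℕ) ×
      ℕ × ℕ × ℕ × ℕ)
  intro seq
  obtain ⟨i, j, hij, h⟩ := hwqo (fun k => Φ (seq k))
  refine ⟨i, j, hij, ?_⟩
  generalize seq i = a at h
  generalize seq j = b at h
  simp only [Φ, Prod.mk_le_mk] at h
  obtain ⟨h1, h2, h3, h4, h5, h6, h7, h8⟩ := h
  obtain ⟨f, hf, hfs, hfu⟩ := exists_strictMono s (u a) (u b) (fun i => h1 i)
    (fun i j hji => by
      have h3' : u a i - u a j ≤ u b i - u b j := h3 (i, j)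
      have h4' : (if u a j ≤ u a i then 1 else 0) ≤ (if u b j ≤ u b i then 1 else 0) := h4 (j, i)
      rw [if_pos hji] at h4'
      have h5' : u b j ≤ u b i := by
        by_contra hcon
        rw [if_neg hcon] at h4'
        omega
      omega)
    (fun i hi => by
      have h1' : u a i ≤ u b i := h1 i
      have h2' : s - u a i ≤ s - u b i := h2 i
      omega)
  refine ⟨f, hf, hfs, ?_, ?_⟩
  · apply Code.ext
    · apply Fin.ext
      have := a.1.idx.2
      have := b.1.idx.2
      show (a.1.idx : ℕ) = b.1.idx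
      omega
    · funext k
      exact hfu (Sum.inl k)
  · apply Code.ext
    · apply Fin.ext
      have := a.2.idx.2
      have := b.2.idx.2
      show (a.2.idx : ℕ) = b.2.idx
      omega
    · funext k
      exact hfu (Sum.inr k)

/-- J1: a descending sequence of closed subgroups containing the image of `G_S` stabilises. -/
theorem dcc_closed {B : Type*} [MulAction (Equiv.Perm ℕ) B] (hfs : FinSupp B) (hof : OrbFin B)
    (S : Finset ℕ) (K : ℕ → Subgroup (Equiv.Perm B)) (hc : ∀ n, IsClosedSub (K n))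
    (hS : ∀ n, ContainsFx S (K n)) (hanti : Antitone K) : ∃ n, ∀ m ≥ n, K m = K n := by
  classical
  obtain ⟨F, hF⟩ := hof
  choose sp hsp using hfs
  -- parameters
  let m := F.card
  let reps : Fin m → B := fun i => (F.equivFin.symm i : B)
  obtain ⟨d, hd0, hd⟩ : ∃ d, 0 < d ∧ ∀ i (g : Equiv.Perm ℕ), (∀ n < d, g n = n) →
      g • reps i = reps i := by
    refine ⟨(F.biUnion sp).sup id + 1, Nat.succ_pos _, ?_⟩
    intro i g hg
    apply hsp
    intro n hn
    apply hg
    have h1 : n ∈ F.biUnion sp := by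
      rw [Finset.mem_biUnion]
      exact ⟨reps i, (F.equivFin.symm i).2, hn⟩
    have h2 : id n ≤ (F.biUnion sp).sup id := Finset.le_sup h1
    simp only [id] at h2
    omega
  obtain ⟨s, hs⟩ : ∃ s, ∀ g : Equiv.Perm ℕ, (∀ n < s, g n = n) → Fx S g := by
    refine ⟨S.sup id + 1, ?_⟩
    intro g hg n hn
    apply hg
    have h2 : id n ≤ S.sup id := Finset.le_sup hn
    simp only [id] at h2
    omega
  -- the coding
  have hext : ∀ x : Code m d, ∃ g : Equiv.Perm ℕ, ∀ i : Fin d, g i = x.t i := by
    intro x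
    obtain ⟨g, hg⟩ := exists_perm_extend (T := Set.Iio d) (Set.finite_Iio d)
      (fun n => if h : n < d then x.t ⟨n, h⟩ else 0) (by
        intro a ha b hb hab
        simp only [Set.mem_Iio] at ha hb
        simp only [ha, hb, dif_pos] at hab
        have := x.inj hab
        exact congrArg Fin.val this)
    refine ⟨g, fun i => ?_⟩
    rw [hg i i.2, dif_pos i.2]
  choose ext hext using hext
  let p : Code m d → B := fun x => ext x • reps x.idx
  have hpact : ∀ (g : Equiv.Perm ℕ) (x y : Code m d), x.idx = y.idx →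
      (∀ i, g (x.t i) = y.t i) → g • p x = p y := by
    intro g x y hidx hxy
    have h1 : ((ext y)⁻¹ * (g * ext x)) • reps x.idx = reps x.idx := by
      apply hd
      intro n hn
      have h2 := hext x ⟨n, hn⟩
      have h3 := hext y ⟨n, hn⟩
      simp only at h2 h3
      rw [Equiv.Perm.mul_apply, Equiv.Perm.mul_apply, h2, hxy, ← h3]
      simp
    rw [mul_smul, inv_smul_eq_iff, mul_smul] at h1
    show g • ext x • reps x.idx = ext y • reps y.idx
    rw [h1, hidx]
  have hpsurj : Function.Surjective p := by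
    intro b
    obtain ⟨g, f, hf, rfl⟩ := hF b
    let x : Code m d := ⟨F.equivFin ⟨f, hf⟩, fun i => g i, fun i j h => by
      have := g.injective h
      exact Fin.ext this⟩
    refine ⟨x, ?_⟩
    have h0 : reps x.idx = f := by
      show ((F.equivFin.symm (F.equivFin ⟨f, hf⟩) : F) : B) = f
      rw [Equiv.symm_apply_apply]
    have h1 : (g⁻¹ * ext x) • reps x.idx = reps x.idx := by
      apply hd
      intro n hn
      have h2 := hext x ⟨n, hn⟩
      simp only at h2
      rw [Equiv.Perm.mul_apply, h2]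
      show g⁻¹ (g n) = n
      simp
    rw [mul_smul, inv_smul_eq_iff] at h1
    show ext x • reps x.idx = g • f
    rw [h1, h0]
  -- the upward closed sets
  let U : ℕ → Set (Code m d × Code m d) := fun n =>
    {a | ¬ ∃ k ∈ K n, (∀ z < a.1, k (p z) = p z) ∧ k (p a.1) = p a.2}
  have hUmono : Monotone U := by
    intro n n' hnn' a ha
    rintro ⟨k, hk, h⟩
    exact ha ⟨k, hanti hnn' hk, h⟩
  have hUup : ∀ n a b, (∃ (f : ℕ → ℕ) (hf : StrictMono f), (∀ n < s, f n = n) ∧
      a.1.map f hf = b.1 ∧ a.2.map f hf = b.2) → a ∈ U n → b ∈ U n := by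
    rintro n ⟨x, y⟩ ⟨x', y'⟩ ⟨f, hf, hfs, hx, hy⟩ ha
    simp only at hx hy
    subst hx hy
    rintro ⟨k, hk, hk1, hk2⟩
    apply ha
    simp only at hk1 hk2 ⊢
    -- a permutation agreeing with f on everything relevant
    let T : Set ℕ := Set.Iio s ∪ (Set.range x.t ∪ Set.range y.t ∪ ⋃ z ∈ Set.Iio x, Set.range z.t)
    have hT : T.Finite := by
      refine (Set.finite_Iio s).union (((Set.finite_range _).union (Set.finite_range _)).union ?_)
      exact (Code.finite_Iio x).biUnion (fun z _ => Set.finite_range _)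
    obtain ⟨g, hg⟩ := exists_perm_extend hT f hf.injective.injOn
    have hgS : Fx S g := by
      apply hs
      intro n hn
      rw [hg n (Or.inl hn), hfs n hn]
    have hgx : g • p x = p (x.map f hf) := hpact g x (x.map f hf) rfl (fun i =>
      hg _ (Or.inr (Or.inl (Or.inl ⟨i, rfl⟩))))
    have hgy : g • p y = p (y.map f hf) := hpact g y (y.map f hf) rfl (fun i =>
      hg _ (Or.inr (Or.inl (Or.inr ⟨i, rfl⟩))))
    have hgz : ∀ z < x, g • p z = p (z.map f hf) := fun z hz => hpact g z (z.map f hf) rfl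
      (fun i => hg _ (Or.inr (Or.inr (Set.mem_biUnion (show z ∈ Set.Iio x from hz) ⟨i, rfl⟩))))
    have hgK := hS n g hgS
    refine ⟨(MulAction.toPermHom (Equiv.Perm ℕ) B g)⁻¹ * (k * MulAction.toPermHom _ B g),
      (K n).mul_mem ((K n).inv_mem hgK) ((K n).mul_mem hk hgK), ?_, ?_⟩
    · intro z hz
      rw [Equiv.Perm.mul_apply, Equiv.Perm.mul_apply, Equiv.Perm.inv_eq_iff_eq]
      show k (g • p z) = g • p z
      rw [hgz z hz]
      exact hk1 _ (Code.map_lt hd0 f hf hz)
    · rw [Equiv.Perm.mul_apply, Equiv.Perm.mul_apply, Equiv.Perm.inv_eq_iff_eq]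
      show k (g • p x) = g • p y
      rw [hgx, hgy, hk2]
  obtain ⟨n, hn⟩ := stab_of_wqo _ (wqo_codes m d s) U hUmono hUup
  refine ⟨n, fun n' hn' => ?_⟩
  refine walk Code.finite_Iio p hpsurj (K n) (K n') (hanti hn') (hc n') ?_
  intro x y h
  by_contra hcon
  have h1 : (x, y) ∈ U n' := hcon
  rw [hn n' hn'] at h1
  exact h1 h

end Reducts
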